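import Pool.Agent.Q207.HT.Stm

/-!
# Project HT, part HT3: the first fundamental theorem for the Lie algebras of products of classical groups, general forms
-/

set_option autoImplicit false

open Finset Matrix

namespace Q162.HT

open Pool.Agent.Y123.GN (Spf)
open Q207.DB
open Q207.HG (hB lkL)
open Q207.HT

section mono

variable {K : Type} [Fintype K]

lemma gensL_mono {H : Set (Matrix K K ℂ)} {Δ Δ' : ℕ → Prop} (h : ∀ s, Δ s → Δ' s) (κ : Type) :
    gensL H Δ κ ≤ gensL H Δ' κ := by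
  unfold gensL
  refine Submodule.span_mono ?_
  rintro x ⟨l, s, e, u, hu, rfl⟩
  exact ⟨l, s, e, u, fun j => ⟨h _ (hu j).1, (hu j).2⟩, rfl⟩

lemma GenL.mono {H : Set (Matrix K K ℂ)} {Δ Δ' : ℕ → Prop} (hg : GenL H Δ) (h : ∀ s, Δ s → Δ' s) : GenL H Δ' := by
  intro κ _ _ x hx
  exact gensL_mono h κ (hg κ x hx)

end mono

section blk

variable {I : Type} [Fintype I] [DecidableEq I] {d : I → ℕ}

lemma blk_bdL (D : ∀ i, Matrix (Fin (d i)) (Fin (d i)) ℂ) (M : Matrix (Σ i, Fin (d i)) (Σ i, Fin (d i)) ℂ) (i j : I) :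
    sel d i * (blockDiagonal' D * M + M * (blockDiagonal' D)ᵀ) * (sel d j)ᵀ =
      D i * (sel d i * M * (sel d j)ᵀ) + (sel d i * M * (sel d j)ᵀ) * (D j)ᵀ := by
  have h1 : (blockDiagonal' D)ᵀ * (sel d j)ᵀ = (sel d j)ᵀ * (D j)ᵀ := by
    rw [← Matrix.transpose_mul, sel_bd, Matrix.transpose_mul]
  rw [Matrix.mul_add, Matrix.add_mul]
  congr 1
  · calc _ = (sel d i * blockDiagonal' D) * M * (sel d j)ᵀ := by simp only [Matrix.mul_assoc]
      _ = _ := by
          rw [sel_bd]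
          simp only [Matrix.mul_assoc]
  · calc _ = sel d i * M * ((blockDiagonal' D)ᵀ * (sel d j)ᵀ) := by simp only [Matrix.mul_assoc]
      _ = _ := by
          rw [h1]
          simp only [Matrix.mul_assoc]

end blk

variable {A : Type} {m : A → ℕ} {B : ∀ a, Matrix (Fin (m a)) (Fin (m a)) ℂ}

/-- the conditions on the blocks -/
structure OKL (x : ∀ (a : {a // B a = 0}) (_ : Bool), Matrix (Fin (m a.1)) (Fin (m a.1)) ℂ)
    (y : ∀ a : {a // B a ≠ 0}, Matrix (Fin (m a.1)) (Fin (m a.1)) ℂ) : Prop where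
  l1 : ∀ a, (x a false).trace = 0
  l2 : ∀ a, x a true = -(Rv (m a.1) * (x a false)ᵀ * Rv (m a.1))
  r1 : ∀ a, (y a).trace = 0
  r2 : ∀ a, y a * Jo B a.1 + Jo B a.1 * (y a)ᵀ = 0

lemma Rv_conj_trace {n : ℕ} (M : Matrix (Fin n) (Fin n) ℂ) : (Rv n * M * Rv n).trace = M.trace := by
  rw [Matrix.trace_mul_comm, ← Matrix.mul_assoc, Rv_mul, Matrix.one_mul]

variable [Fintype A] [DecidableEq A]

lemma inLD_of {x : ∀ (a : {a // B a = 0}) (_ : Bool), Matrix (Fin (m a.1)) (Fin (m a.1)) ℂ}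
    {y : ∀ a : {a // B a ≠ 0}, Matrix (Fin (m a.1)) (Fin (m a.1)) ℂ} (h : OKL x y) :
    InLD (eA B) (blockDiagonal' (Dof x y)) := by
  refine ⟨?_, ?_, ?_⟩
  · rintro ⟨i, p⟩ ⟨j, p'⟩ hij
    exact blockDiagonal'_apply_ne _ _ _ hij
  · refine ext_blk fun i j => ?_
    rw [blk_bdL, Matrix.mul_zero, Matrix.zero_mul]
    by_cases hj : j = (LA B).star i
    · subst hj
      rcases i with ⟨a, b⟩ | a
      · show x a b * FL a b + FL a b * (x a (!b))ᵀ = 0
        rw [FL_eq]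
        rcases b with _ | _
        · show x a false * ((1 : ℂ) • Rv (m a.1)) + ((1 : ℂ) • Rv (m a.1)) * (x a true)ᵀ = 0
          rw [one_smul, h.l2, Matrix.transpose_neg, Matrix.transpose_mul, Matrix.transpose_mul, Rv_T, Matrix.transpose_transpose,
            Matrix.mul_neg, ← Matrix.mul_assoc (Rv (m a.1)) (Rv (m a.1)), Rv_mul, Matrix.one_mul, add_neg_cancel]
        · show x a true * ((-1 : ℂ) • Rv (m a.1)) + ((-1 : ℂ) • Rv (m a.1)) * (x a false)ᵀ = 0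
          rw [h.l2, Matrix.mul_smul, Matrix.smul_mul, Matrix.neg_mul, Matrix.mul_assoc, Rv_mul, Matrix.mul_one, ← smul_add,
            neg_add_cancel, smul_zero]
      · show y a * FR a + FR a * (y a)ᵀ = 0
        rw [FR_eq]
        exact h.r2 a
    · rw [fb_ne hj, Matrix.mul_zero, Matrix.zero_mul, add_zero]
  · intro i _
    have h1 : ∑ p : Fin ((LA B).dim i), blockDiagonal' (Dof x y) ⟨i, p⟩ ⟨i, p⟩ = (Dof x y i).trace := by
      refine Finset.sum_congr rfl fun p _ => ?_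
      rw [blockDiagonal'_apply_eq]
      rfl
    rw [h1]
    rcases i with ⟨a, b⟩ | a
    · rcases b with _ | _
      · exact h.l1 a
      · show (x a true).trace = 0
        rw [h.l2, Matrix.trace_neg, Rv_conj_trace, Matrix.trace_transpose, h.l1, neg_zero]
    · exact h.r1 a

lemma of_inLD (hB : Okf B) {g : Matrix (Letter (LA B)) (Letter (LA B)) ℂ} (hg : InLD (eA B) g) :
    ∃ (x : ∀ (a : {a // B a = 0}) (_ : Bool), Matrix (Fin (m a.1)) (Fin (m a.1)) ℂ)
      (y : ∀ a : {a // B a ≠ 0}, Matrix (Fin (m a.1)) (Fin (m a.1)) ℂ), OKL x y ∧ g = blockDiagonal' (Dof x y) := by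
  classical
  set D : ∀ i : IA B, Matrix (Fin ((LA B).dim i)) (Fin ((LA B).dim i)) ℂ := fun i => Matrix.of fun p p' => g ⟨i, p⟩ ⟨i, p'⟩ with hD
  have hgD : g = blockDiagonal' D := by
    ext ⟨i, p⟩ ⟨j, p'⟩
    by_cases h : i = j
    · subst h
      rw [blockDiagonal'_apply_eq]
      rfl
    · rw [blockDiagonal'_apply_ne _ _ _ h]
      exact hg.block _ _ h
  have hform : ∀ i j, D i * (sel (LA B).dim i * form (eA B) * (sel (LA B).dim j)ᵀ) +
      (sel (LA B).dim i * form (eA B) * (sel (LA B).dim j)ᵀ) * (D j)ᵀ = 0 := by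
    intro i j
    rw [← blk_bdL, ← hgD, hg.form, Matrix.mul_zero, Matrix.zero_mul]
  set x : ∀ (a : {a // B a = 0}) (_ : Bool), Matrix (Fin (m a.1)) (Fin (m a.1)) ℂ := fun a b => D (Sum.inl (a, b)) with hx
  set y : ∀ a : {a // B a ≠ 0}, Matrix (Fin (m a.1)) (Fin (m a.1)) ℂ := fun a => D (Sum.inr a) with hy
  have hDof : D = Dof x y := by
    funext i
    rcases i with ⟨a, b⟩ | a
    · rfl
    · rfl
  have hl1 : ∀ a, (x a false).trace = 0 := fun a => hg.tr (Sum.inl (a, false)) (Or.inl (by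
    rw [star_l]
    intro h
    have h2 := congrArg Prod.snd (Sum.inl_injective h)
    exact absurd h2 (by simp)))
  have hr2 : ∀ a, y a * Jo B a.1 + Jo B a.1 * (y a)ᵀ = 0 := fun a => by
    have h1 : y a * FR a + FR a * (y a)ᵀ = 0 := hform (Sum.inr a) (Sum.inr a)
    rwa [FR_eq] at h1
  refine ⟨x, y, ⟨hl1, fun a => ?_, fun a => ?_, hr2⟩, by rw [hgD, hDof]⟩
  · have h1 : x a false * FL a false + FL a false * (x a true)ᵀ = 0 := hform (Sum.inl (a, false)) (Sum.inl (a, true))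
    rw [FL_eq] at h1
    have h2 : x a false * Rv (m a.1) + Rv (m a.1) * (x a true)ᵀ = 0 := by
      have h3 : x a false * ((1 : ℂ) • Rv (m a.1)) + ((1 : ℂ) • Rv (m a.1)) * (x a true)ᵀ = 0 := h1
      rwa [one_smul] at h3
    have h3 : (x a true)ᵀ = -(Rv (m a.1) * x a false * Rv (m a.1)) := by
      have h4 : Rv (m a.1) * (x a true)ᵀ = -(x a false * Rv (m a.1)) := eq_neg_of_add_eq_zero_right h2
      calc (x a true)ᵀ = Rv (m a.1) * (Rv (m a.1) * (x a true)ᵀ) := by rw [← Matrix.mul_assoc, Rv_mul, Matrix.one_mul]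
        _ = _ := by rw [h4, Matrix.mul_neg, Matrix.mul_assoc]
    have h4 := congrArg Matrix.transpose h3
    rw [Matrix.transpose_transpose, Matrix.transpose_neg, Matrix.transpose_mul, Matrix.transpose_mul, Rv_T, ← Matrix.mul_assoc] at h4
    exact h4
  · by_cases ho : (B a.1)ᵀ = B a.1
    · exact hg.tr (Sum.inr a) (Or.inr (by
        show decide ((B a.1)ᵀ = B a.1) = true
        rw [decide_eq_true_iff]
        exact ho))
    · obtain ⟨c, hc, hJ⟩ := Jo_sq hB a.2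
      have h1 : y a * Jo B a.1 = -(Jo B a.1 * (y a)ᵀ) := eq_neg_of_add_eq_zero_left (hr2 a)
      have h2 : c * (y a).trace = -(c * (y a).trace) := by
        have h3 : (y a * Jo B a.1 * Jo B a.1).trace = c * (y a).trace := by
          rw [Matrix.mul_assoc, hJ, Matrix.mul_smul, Matrix.mul_one, Matrix.trace_smul, smul_eq_mul]
        have h4 : (Jo B a.1 * (y a)ᵀ * Jo B a.1).trace = c * (y a).trace := by
          rw [Matrix.trace_mul_comm, ← Matrix.mul_assoc, hJ, Matrix.smul_mul, Matrix.one_mul, Matrix.trace_smul,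
            Matrix.trace_transpose, smul_eq_mul]
        calc c * (y a).trace = (y a * Jo B a.1 * Jo B a.1).trace := h3.symm
          _ = (-(Jo B a.1 * (y a)ᵀ) * Jo B a.1).trace := by rw [h1]
          _ = -(Jo B a.1 * (y a)ᵀ * Jo B a.1).trace := by rw [Matrix.neg_mul, Matrix.trace_neg]
          _ = _ := by rw [h4]
      have h5 : c * (y a).trace = 0 := by linear_combination (1 / 2 : ℂ) * h2
      exact (mul_eq_zero.1 h5).resolve_left hc

omit [Fintype A] [DecidableEq A] in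
lemma swapL {n : ℕ} {J y : Matrix (Fin n) (Fin n) ℂ} {c : ℂ} (hc : c ≠ 0) (hJ : J * J = c • 1) (h : yᵀ * J + J * y = 0) :
    y * J + J * yᵀ = 0 := by
  have h1 : J * (yᵀ * J + J * y) * J = c • (y * J + J * yᵀ) := by
    calc J * (yᵀ * J + J * y) * J = J * yᵀ * (J * J) + (J * J) * (y * J) := by
          simp only [Matrix.mul_add, Matrix.add_mul, Matrix.mul_assoc]
      _ = _ := by
          rw [hJ, Matrix.mul_smul, Matrix.mul_one, Matrix.smul_mul, Matrix.one_mul, ← smul_add, add_comm]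
  rw [h, Matrix.mul_zero, Matrix.zero_mul] at h1
  exact (smul_eq_zero.1 h1.symm).resolve_left hc

omit [Fintype A] [DecidableEq A] in
lemma swapL' {n : ℕ} {J y : Matrix (Fin n) (Fin n) ℂ} {c : ℂ} (hc : c ≠ 0) (hJ : J * J = c • 1) (h : y * J + J * yᵀ = 0) :
    yᵀ * J + J * y = 0 := by
  have h1 := swapL (y := yᵀ) hc hJ (by rw [Matrix.transpose_transpose]; exact h)
  rwa [Matrix.transpose_transpose] at h1

theorem stA' (fft : S_Fft) (trbd : S_TrBd) (hOk : Okf B) (hm : ∀ a, 0 < m a) : GenL (BD (W1L B)) (Dl B) := by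
  classical
  have hS0 : ∀ a, ∃ S : Matrix (Fin (m a)) (Fin (m a)) ℂ, B a ≠ 0 → Sᵀ * Jo B a * S = B a := by
    intro a
    by_cases h : B a = 0
    · exact ⟨1, fun h2 => absurd h h2⟩
    · obtain ⟨S, hS⟩ := exists_S hOk a h
      exact ⟨S, fun _ => hS⟩
  choose S hS using hS0
  have hSd : ∀ a, B a ≠ 0 → IsUnit (S a).det := by
    intro a h
    have h1 := (Matrix.isUnit_iff_isUnit_det _).1 (hOk a h).1
    rw [← hS a h, Matrix.det_mul, Matrix.det_mul] at h1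
    exact isUnit_of_mul_isUnit_right h1
  have hS1 : ∀ a, B a ≠ 0 → S a * (S a)⁻¹ = 1 := fun a h => Matrix.mul_nonsing_inv _ (hSd a h)
  have hS2 : ∀ a, B a ≠ 0 → (S a)⁻¹ * S a = 1 := fun a h => Matrix.nonsing_inv_mul _ (hSd a h)
  set LV : Set (∀ a, Matrix (Fin (m a)) (Fin (m a)) ℂ) := {X | ∀ a, X a ∈ hB (B a)} with hLV
  set xx : (∀ a, Matrix (Fin (m a)) (Fin (m a)) ℂ) → ∀ (a : {a // B a = 0}) (_ : Bool), Matrix (Fin (m a.1)) (Fin (m a.1)) ℂ :=
    fun v a b => if b then -(Rv (m a.1) * (v a.1)ᵀ * Rv (m a.1)) else v a.1 with hxx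
  set yy : (∀ a, Matrix (Fin (m a)) (Fin (m a)) ℂ) → ∀ (a : {a // B a ≠ 0}), Matrix (Fin (m a.1)) (Fin (m a.1)) ℂ :=
    fun v a => S a.1 * v a.1 * (S a.1)⁻¹ with hyy
  -- the Lie algebra
  have hok : ∀ v ∈ LV, OKL (xx v) (yy v) := by
    intro v hv
    refine ⟨fun a => (hv a.1).1, fun a => rfl, fun a => ?_, fun a => ?_⟩
    · show (S a.1 * v a.1 * (S a.1)⁻¹).trace = 0
      rw [Matrix.trace_mul_comm, ← Matrix.mul_assoc, hS2 _ a.2, Matrix.one_mul]
      exact (hv a.1).1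
    · obtain ⟨c, hc, hJ⟩ := Jo_sq hOk a.2
      refine swapL hc hJ ?_
      show (S a.1 * v a.1 * (S a.1)⁻¹)ᵀ * Jo B a.1 + Jo B a.1 * (S a.1 * v a.1 * (S a.1)⁻¹) = 0
      have e1 : ((S a.1)⁻¹)ᵀ * (S a.1)ᵀ = 1 := by rw [← Matrix.transpose_mul, hS1 _ a.2, Matrix.transpose_one]
      rw [Matrix.transpose_mul, Matrix.transpose_mul]
      have e2 : ((S a.1)⁻¹)ᵀ * ((v a.1)ᵀ * (S a.1)ᵀ) * Jo B a.1 =
          ((S a.1)⁻¹)ᵀ * ((v a.1)ᵀ * B a.1) * (S a.1)⁻¹ := by
        rw [← hS _ a.2]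
        calc _ = ((S a.1)⁻¹)ᵀ * ((v a.1)ᵀ * (S a.1)ᵀ) * Jo B a.1 * (S a.1 * (S a.1)⁻¹) := by rw [hS1 _ a.2, Matrix.mul_one]
          _ = _ := by simp only [Matrix.mul_assoc]
      have e3 : Jo B a.1 * (S a.1 * v a.1 * (S a.1)⁻¹) = ((S a.1)⁻¹)ᵀ * (B a.1 * v a.1) * (S a.1)⁻¹ := by
        rw [← hS _ a.2]
        calc _ = (((S a.1)⁻¹)ᵀ * (S a.1)ᵀ) * Jo B a.1 * (S a.1 * v a.1 * (S a.1)⁻¹) := by rw [e1, Matrix.one_mul]
          _ = _ := by simp only [Matrix.mul_assoc]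
      have e4 : (v a.1)ᵀ * B a.1 + B a.1 * v a.1 = 0 := (hv a.1).2
      rw [e2, e3, ← Matrix.add_mul, ← Matrix.mul_add, e4, Matrix.mul_zero, Matrix.zero_mul]
  have hall : ∀ x y, OKL (B := B) x y → ∃ v ∈ LV, x = xx v ∧ y = yy v := by
    intro x y h
    set v : ∀ a, Matrix (Fin (m a)) (Fin (m a)) ℂ := fun a =>
      if h : B a = 0 then x ⟨a, h⟩ false else (S a)⁻¹ * y ⟨a, h⟩ * S a with hv
    have hv0 : ∀ a : {a // B a = 0}, v a.1 = x a false := fun a => dif_pos a.2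
    have hv3 : ∀ a : {a // B a ≠ 0}, v a.1 = (S a.1)⁻¹ * y a * S a.1 := fun a => dif_neg a.2
    refine ⟨v, fun a => ?_, ?_, ?_⟩
    · by_cases h0 : B a = 0
      · rw [hv0 ⟨a, h0⟩, h0]
        exact ⟨h.l1 _, by rw [Matrix.mul_zero, Matrix.zero_mul, add_zero]⟩
      · rw [hv3 ⟨a, h0⟩]
        refine ⟨?_, ?_⟩
        · show ((S a)⁻¹ * y ⟨a, h0⟩ * S a).trace = 0
          rw [Matrix.trace_mul_comm, ← Matrix.mul_assoc, hS1 _ h0, Matrix.one_mul]
          exact h.r1 _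
        · obtain ⟨c, hc, hJ⟩ := Jo_sq hOk h0
          have e2 : (y ⟨a, h0⟩)ᵀ * Jo B a + Jo B a * y ⟨a, h0⟩ = 0 := swapL' hc hJ (h.r2 ⟨a, h0⟩)
          have e1 : (S a)ᵀ * ((S a)⁻¹)ᵀ = 1 := by rw [← Matrix.transpose_mul, hS2 _ h0, Matrix.transpose_one]
          show ((S a)⁻¹ * y ⟨a, h0⟩ * S a)ᵀ * B a + B a * ((S a)⁻¹ * y ⟨a, h0⟩ * S a) = 0
          rw [Matrix.transpose_mul, Matrix.transpose_mul]
          have e3 : (S a)ᵀ * ((y ⟨a, h0⟩)ᵀ * ((S a)⁻¹)ᵀ) * B a = (S a)ᵀ * ((y ⟨a, h0⟩)ᵀ * Jo B a) * S a := by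
            have e5 : ((S a)⁻¹)ᵀ * (S a)ᵀ = 1 := by rw [← Matrix.transpose_mul, hS1 _ h0, Matrix.transpose_one]
            calc (S a)ᵀ * ((y ⟨a, h0⟩)ᵀ * ((S a)⁻¹)ᵀ) * B a =
                  (S a)ᵀ * ((y ⟨a, h0⟩)ᵀ * ((S a)⁻¹)ᵀ) * ((S a)ᵀ * Jo B a * S a) := by rw [hS a h0]
              _ = (S a)ᵀ * (y ⟨a, h0⟩)ᵀ * (((S a)⁻¹)ᵀ * (S a)ᵀ) * Jo B a * S a := by simp only [Matrix.mul_assoc]
              _ = (S a)ᵀ * (y ⟨a, h0⟩)ᵀ * Jo B a * S a := by rw [e5, Matrix.mul_one]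
              _ = _ := by simp only [Matrix.mul_assoc]
          have e4 : B a * ((S a)⁻¹ * y ⟨a, h0⟩ * S a) = (S a)ᵀ * (Jo B a * y ⟨a, h0⟩) * S a := by
            calc B a * ((S a)⁻¹ * y ⟨a, h0⟩ * S a) =
                  (S a)ᵀ * Jo B a * S a * ((S a)⁻¹ * y ⟨a, h0⟩ * S a) := by rw [hS a h0]
              _ = (S a)ᵀ * Jo B a * (S a * (S a)⁻¹) * y ⟨a, h0⟩ * S a := by simp only [Matrix.mul_assoc]
              _ = (S a)ᵀ * Jo B a * y ⟨a, h0⟩ * S a := by rw [hS1 _ h0, Matrix.mul_one]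
              _ = _ := by simp only [Matrix.mul_assoc]
          rw [e3, e4, ← Matrix.add_mul, ← Matrix.mul_add, e2, Matrix.mul_zero, Matrix.zero_mul]
    · funext a b
      rcases b with _ | _
      · exact (hv0 a).symm
      · show x a true = -(Rv (m a.1) * (v a.1)ᵀ * Rv (m a.1))
        rw [hv0, h.l2]
    · funext a
      show y a = S a.1 * v a.1 * (S a.1)⁻¹
      rw [hv3]
      calc y a = (S a.1 * (S a.1)⁻¹) * y a * (S a.1 * (S a.1)⁻¹) := by rw [hS1 _ a.2, Matrix.one_mul, Matrix.mul_one]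
        _ = _ := by simp only [Matrix.mul_assoc]
  set V : Set (∀ i : IA B, Matrix (Fin ((LA B).dim i)) (Fin ((LA B).dim i)) ℂ) := {D | ∃ v ∈ LV, D = Dof (xx v) (yy v)} with hV
  have hGD : {X : Matrix (Letter (LA B)) (Letter (LA B)) ℂ | InLD (eA B) X} = BD V := by
    ext g
    constructor
    · intro hg
      obtain ⟨x, y, h1, h2⟩ := of_inLD hOk hg
      obtain ⟨v, hv, rfl, rfl⟩ := hall x y h1
      exact ⟨_, ⟨v, hv, rfl⟩, h2⟩
    · rintro ⟨_, ⟨v, hv, rfl⟩, rfl⟩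
      exact inLD_of (hok v hv)
  have hε : ∀ x : Letter (LA B), ¬ (LA B).orth x.1 = true → eA B (dual x) = -eA B x := by
    rintro ⟨⟨a, b⟩ | a, p⟩ ho
    · have h1 : dual (⟨Sum.inl (a, b), p⟩ : Letter (LA B)) = ⟨Sum.inl (a, !b), (Fin.rev p : Fin (m a.1))⟩ := by
        rw [dual_of_not ho]
        rfl
      rw [h1]
      show (if (!b) = true then (-1 : ℂ) else 1) = -(if b = true then (-1 : ℂ) else 1)
      rcases b with _ | _
      · simp
      · simp
    · have ho' : ¬ (B a.1)ᵀ = B a.1 := by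
        intro h
        apply ho
        show decide ((B a.1)ᵀ = B a.1) = true
        rw [decide_eq_true_iff]
        exact h
      have h1 : dual (⟨Sum.inr a, p⟩ : Letter (LA B)) = ⟨Sum.inr a, (Fin.rev p : Fin (m a.1))⟩ := by
        rw [dual_of_not ho]
        rfl
      rw [h1]
      exact eA_rev hOk a ho' p
  have hε0 : ∀ x, eA B x ≠ 0 := by
    rintro ⟨⟨a, b⟩ | a, p⟩
    · show (if b = true then (-1 : ℂ) else 1) ≠ 0
      split_ifs
      · norm_num
      · norm_num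
    · show (if (B a.1)ᵀ = B a.1 then (1 : ℂ) else if ((p : Fin (m a.1)) : ℕ) < Fin.rev (p : Fin (m a.1)) then 1 else -1) ≠ 0
      split_ifs
      · norm_num
      · norm_num
      · norm_num
  have h1 := fft (IA B) (LA B) (eA B) hε hε0
  rw [hGD] at h1
  have h2 : GenL (BD V) (Dl B) := by
    refine GenL.mono h1 ?_
    rintro s (rfl | ⟨i, hi, rfl⟩)
    · exact Or.inl rfl
    · rcases i with ⟨a, b⟩ | a
      · refine Or.inr ⟨a.1, fun h => ?_, rfl⟩
        have h3 := h.1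
        rw [a.2] at h3
        have : Nonempty (Fin (m a.1)) := ⟨⟨0, hm _⟩⟩
        exact not_isUnit_zero h3
      · rcases hi with hi | hi
        · exact absurd rfl hi
        · refine Or.inr ⟨a.1, fun h => ?_, rfl⟩
          have hi' : (B a.1)ᵀ = B a.1 := by
            have h4 : decide ((B a.1)ᵀ = B a.1) = true := hi
            rwa [decide_eq_true_iff] at h4
          have h5 := h.2
          rw [hi'] at h5
          have h6 : (2 : ℂ) • B a.1 = 0 := by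
            rw [two_smul]
            nth_rewrite 2 [h5]
            exact add_neg_cancel _
          rw [smul_eq_zero] at h6
          exact a.2 (h6.resolve_left (by norm_num))
  have hN : ∀ p : A × Bool, ∃ (i : IA B) (N : Matrix (Fin ((LA B).dim i)) (Fin (m p.1)) ℂ) (N' : Matrix (Fin (m p.1)) (Fin ((LA B).dim i)) ℂ),
      N' * N = 1 ∧ ∀ v ∈ LV, Dof (xx v) (yy v) i * N = N * (if p.2 then -(v p.1)ᵀ else v p.1) ∧
        (if p.2 then -(v p.1)ᵀ else v p.1) * N' = N' * Dof (xx v) (yy v) i := by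
    rintro ⟨a, b⟩
    by_cases h : B a = 0
    · rcases b with _ | _
      · refine ⟨Sum.inl (⟨a, h⟩, false), (1 : Matrix (Fin (m a)) (Fin (m a)) ℂ), (1 : Matrix (Fin (m a)) (Fin (m a)) ℂ), Matrix.mul_one _,
          fun v hv => ⟨?_, ?_⟩⟩
        · exact (Matrix.mul_one (v a)).trans (Matrix.one_mul (v a)).symm
        · exact (Matrix.mul_one (v a)).trans (Matrix.one_mul (v a)).symm
      · refine ⟨Sum.inl (⟨a, h⟩, true), Rv (m a), Rv (m a), Rv_mul _, fun v hv => ⟨?_, ?_⟩⟩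
        · have e1 : -(Rv (m a) * (v a)ᵀ * Rv (m a)) * Rv (m a) = Rv (m a) * -(v a)ᵀ := by
            rw [Matrix.neg_mul, Matrix.mul_assoc, Rv_mul, Matrix.mul_one, Matrix.mul_neg]
          exact e1
        · have e1 : -(v a)ᵀ * Rv (m a) = Rv (m a) * -(Rv (m a) * (v a)ᵀ * Rv (m a)) := by
            rw [Matrix.mul_neg, ← Matrix.mul_assoc, ← Matrix.mul_assoc, Rv_mul, Matrix.one_mul, Matrix.neg_mul]
          exact e1
    · have hBu := (Matrix.isUnit_iff_isUnit_det _).1 (hOk a h).1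
      have hB1 : B a * (B a)⁻¹ = 1 := Matrix.mul_nonsing_inv _ hBu
      have hB2 : (B a)⁻¹ * B a = 1 := Matrix.nonsing_inv_mul _ hBu
      rcases b with _ | _
      · refine ⟨Sum.inr ⟨a, h⟩, S a, ((S a)⁻¹ : Matrix (Fin (m a)) (Fin (m a)) ℂ), hS2 a h, fun v hv => ⟨?_, ?_⟩⟩
        · have e1 : S a * v a * (S a)⁻¹ * S a = S a * v a := by
            rw [Matrix.mul_assoc, hS2 a h, Matrix.mul_one]
          exact e1
        · have e1 : v a * (S a)⁻¹ = (S a)⁻¹ * (S a * v a * (S a)⁻¹) := by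
            rw [← Matrix.mul_assoc, ← Matrix.mul_assoc, hS2 a h, Matrix.one_mul]
          exact e1
      · have hkey : ∀ v ∈ LV, -(v a)ᵀ * B a = B a * v a := by
          intro v hv
          have e4 : (v a)ᵀ * B a + B a * v a = 0 := (hv a).2
          rw [Matrix.neg_mul]
          exact neg_eq_of_add_eq_zero_right e4
        refine ⟨Sum.inr ⟨a, h⟩, (S a * (B a)⁻¹ : Matrix (Fin (m a)) (Fin (m a)) ℂ), (B a * (S a)⁻¹ : Matrix (Fin (m a)) (Fin (m a)) ℂ), ?_, fun v hv => ⟨?_, ?_⟩⟩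
        · calc B a * (S a)⁻¹ * (S a * (B a)⁻¹) = B a * ((S a)⁻¹ * S a) * (B a)⁻¹ := by simp only [Matrix.mul_assoc]
            _ = 1 := by rw [hS2 a h, Matrix.mul_one, hB1]
        · have e1 : S a * v a * (S a)⁻¹ * (S a * (B a)⁻¹) = S a * (B a)⁻¹ * -(v a)ᵀ := by
           calc S a * v a * (S a)⁻¹ * (S a * (B a)⁻¹) = S a * v a * ((S a)⁻¹ * S a) * (B a)⁻¹ := by simp only [Matrix.mul_assoc]
            _ = S a * (((B a)⁻¹ * B a) * v a) * (B a)⁻¹ := by rw [hS2 a h, hB2, Matrix.mul_one, Matrix.one_mul]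
            _ = S a * (B a)⁻¹ * (B a * v a) * (B a)⁻¹ := by simp only [Matrix.mul_assoc]
            _ = S a * (B a)⁻¹ * (-(v a)ᵀ * B a) * (B a)⁻¹ := by rw [hkey v hv]
            _ = S a * (B a)⁻¹ * -(v a)ᵀ * (B a * (B a)⁻¹) := by simp only [Matrix.mul_assoc]
            _ = _ := by rw [hB1, Matrix.mul_one]
          exact e1
        · have e1 : -(v a)ᵀ * (B a * (S a)⁻¹) = B a * (S a)⁻¹ * (S a * v a * (S a)⁻¹) := by
           calc -(v a)ᵀ * (B a * (S a)⁻¹) = (-(v a)ᵀ * B a) * (S a)⁻¹ := by simp only [Matrix.mul_assoc]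
            _ = B a * ((S a)⁻¹ * S a) * v a * (S a)⁻¹ := by rw [hkey v hv, hS2 a h, Matrix.mul_one]
            _ = _ := by simp only [Matrix.mul_assoc]
          exact e1
  choose ι N N' hN0 hN1 using hN
  refine trbd (IA B) (A × Bool) (LA B).dim (fun p : A × Bool => m p.1) (Dl B) V (W1L B) h2 ι N N' hN0 ?_ ?_
  · rintro _ ⟨v, hv, rfl⟩
    exact ⟨fun p => if p.2 then -(v p.1)ᵀ else v p.1, ⟨v, hv, fun p => rfl⟩, fun p => (hN1 p v hv).1⟩
  · rintro w ⟨v, hv, hw⟩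
    refine ⟨_, ⟨v, hv, rfl⟩, fun p => ?_⟩
    rw [hw p]
    exact (hN1 p v hv).2

/-- HT3 -/
theorem stA : S_Fft → S_TrBd → S_StA := by
  intro fft trbd A _ _ m B hOk hm
  exact stA' fft trbd hOk hm

end Q162.HT
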